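import Pool.Agent.helper37.NA.Spec
import Pool.Agent.helper50.DD.CPL

/-!
# na:NTR: a large cyclic central subgroup sticks out of the commutator subgroup

`z` central in the `p`-group `D`, of order `p ^ e`, `|D| ≤ p ^ (e + m)`, `m < e`: then `z ^ p ^ (e - m / 2 - 1)` is not in `⁅D, D⁆`.
-/

set_option autoImplicit false

namespace Pool.Agent.NAB

open Pool.Agent.helper58.DC Pool.Agent.DI Pool.Agent.GR Pool.Agent.OB Pool.Agent.DR Pool.Agent.FI Pool.Agent.FI3 Pool.Agent.FI4 Pool.Agent.FI4I Pool.Agent.LE Pool.Agent.L5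

/-- A central element `u ≠ 1` of a finite group is seen by an irreducible character. -/
theorem NTR_irr (H : Type) [Group H] [Finite H] (u : H) (hu : u ≠ 1) (hc : ∀ d : H, u * d = d * u) :
    ∃ χ ∈ Irr H, χ u ≠ χ 1 := by
  classical
  by_contra hcon
  push Not at hcon
  have : Fintype H := Fintype.ofFinite H
  have h := Pool.Agent.DD.CPL H (fun g => (if g = 1 then (1 : ℂ) else 0) - (if g = u⁻¹ then (1 : ℂ) else 0)) ?_ ?_
  · have h1 := congrFun h 1
    have h2 : (1 : H) ≠ u⁻¹ := by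
      intro h3
      exact hu (by simpa using h3.symm)
    simp [h2] at h1
  · intro g h
    have h1 : h * g * h⁻¹ = 1 ↔ g = 1 := by
      constructor
      · intro h2
        have := congrArg (fun x => h⁻¹ * x * h) h2
        simpa [mul_assoc] using this
      · rintro rfl
        simp
    have h2 : h * g * h⁻¹ = u⁻¹ ↔ g = u⁻¹ := by
      have hc' : u⁻¹ * h = h * u⁻¹ := by
        have h4 := hc h
        calc u⁻¹ * h = u⁻¹ * (h * u) * u⁻¹ := by group
          _ = u⁻¹ * (u * h) * u⁻¹ := by rw [h4]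
          _ = h * u⁻¹ := by group
      constructor
      · intro h3
        calc g = h⁻¹ * (h * g * h⁻¹) * h := by group
          _ = h⁻¹ * (u⁻¹ * h) := by rw [h3]; group
          _ = h⁻¹ * (h * u⁻¹) := by rw [hc']
          _ = u⁻¹ := by group
      · rintro rfl
        rw [← hc']
        group
    simp only [h1, h2]
  · intro χ hχ
    have h1 := hcon χ hχ
    simp only [sub_mul, ite_mul, one_mul, zero_mul, Finset.sum_sub_distrib, Finset.sum_ite_eq', Finset.mem_univ, if_true]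
    rw [inv_one, inv_inv, h1, sub_self]

/-- The extension by zero of a character of `D`. -/
theorem NTR_ext {G : Type} [Group G] (D : Subgroup G) (χ : D → ℂ) (hχ : χ ∈ Irr D) :
    ∃ ψ ∈ IrrOn D, ∀ d : D, ψ (d : G) = χ d := by
  classical
  refine ⟨fun x => if hx : x ∈ D then χ ⟨x, hx⟩ else 0, ⟨fun g hg => dif_neg hg, ?_⟩, ?_⟩
  · have e : (fun h : D => (fun x : G => if hx : x ∈ D then χ ⟨x, hx⟩ else 0) (h : G)) = χ := by
      funext h
      have h1 : (h : G) ∈ D := h.2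
      show (if hx : (h : G) ∈ D then χ ⟨(h : G), hx⟩ else 0) = χ h
      rw [dif_pos h1]
    rw [e]
    exact hχ
  · intro h
    have h1 : (h : G) ∈ D := h.2
    show (if hx : (h : G) ∈ D then χ ⟨(h : G), hx⟩ else 0) = χ h
    rw [dif_pos h1]

/-- The sum of the squares of the absolute values. -/
theorem NTR_sq (hB2 : B2_stmt) (hST : STC_stmt) {G : Type} [Group G] [Finite G] (D : Subgroup G) (ψ : G → ℂ) (hψ : ψ ∈ IrrOn D)
    (A : Finset G) (r : ℝ) (hA : ∀ g ∈ A, ‖ψ g‖ = r) : (A.card : ℝ) * r ^ 2 ≤ Nat.card D := by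
  classical
  have : Fintype G := Fintype.ofFinite G
  have h1 := (((hB2 G D).2 ψ hψ).2.2.2.2) ψ hψ
  rw [if_pos rfl, finsum_eq_sum_of_fintype] at h1
  have h2 : (∑ g : G, ‖ψ g‖ ^ 2 : ℝ) = Nat.card D := by
    have h3 : ((∑ g : G, ‖ψ g‖ ^ 2 : ℝ) : ℂ) = ((Nat.card D : ℝ) : ℂ) := by
      push_cast
      rw [← h1]
      refine Finset.sum_congr rfl fun g _ => ?_
      rw [hST G D ψ hψ g, Complex.mul_conj, Complex.normSq_eq_norm_sq]
      push_cast
      rfl
    exact_mod_cast h3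
  rw [← h2]
  calc (A.card : ℝ) * r ^ 2 = ∑ g ∈ A, ‖ψ g‖ ^ 2 := by
        rw [Finset.sum_congr rfl fun g hg => by rw [hA g hg], Finset.sum_const, nsmul_eq_mul]
    _ ≤ ∑ g : G, ‖ψ g‖ ^ 2 := Finset.sum_le_sum_of_subset_of_nonneg (Finset.subset_univ _) fun g _ _ => by positivity

theorem NTR (hB2 : B2_stmt) (hST : STC_stmt) : NTR_stmt := by
  classical
  intro p e m hp hme G _ _ D hD hcard z hz hzc hzo
  have : Fintype G := Fintype.ofFinite G
  refine ⟨by omega, z, hz, hzc, ?_⟩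
  intro hw
  set c : ℕ := e - m / 2 with hc
  have he : 1 ≤ e := by omega
  -- the character
  let u : D := ⟨z ^ p ^ (e - 1), D.pow_mem hz _⟩
  have hu1 : u ≠ 1 := by
    intro h
    have h1 : z ^ p ^ (e - 1) = 1 := congrArg Subtype.val h
    have h2 := orderOf_dvd_of_pow_eq_one h1
    rw [hzo] at h2
    have h3 := (Nat.pow_dvd_pow_iff_le_right hp.one_lt).1 h2
    omega
  have hzc' : ∀ d : D, (⟨z, hz⟩ : D) * d = d * ⟨z, hz⟩ := fun d => Subtype.ext (hzc d d.2)
  have huz : u = (⟨z, hz⟩ : D) ^ p ^ (e - 1) := by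
    apply Subtype.ext
    rw [Subgroup.coe_pow]
  have huc : ∀ d : D, u * d = d * u := by
    intro d
    rw [huz]
    exact (Commute.pow_left (hzc' d) _).eq
  obtain ⟨χ, hχ, hχu⟩ := NTR_irr D u hu1 huc
  obtain ⟨ψ, hψ, hψχ⟩ := NTR_ext D χ hχ
  obtain ⟨⟨n, hn, hn1, -⟩, -⟩ := (hB2 G D).2 ψ hψ
  obtain ⟨V, _, _, _, ρ, hirr, rfl⟩ := hχ
  obtain ⟨lam, hlam⟩ := Pool.Agent.DD.CPL_schur ρ hirr (ρ ⟨z, hz⟩) (fun g => by
    rw [← map_mul, ← map_mul, hzc' g])
  have hpow : ∀ k : ℕ, ρ ((⟨z, hz⟩ : D) ^ k) = lam ^ k • (1 : V →ₗ[ℂ] V) := by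
    intro k
    rw [map_pow, hlam, smul_pow, one_pow]
  have hdim : ρ.character 1 = (n : ℂ) := by
    rw [← hψχ 1, ← hn1]
    rfl
  have htr1 : LinearMap.trace ℂ V (1 : V →ₗ[ℂ] V) = (n : ℂ) := by
    rw [← hdim, ← map_one ρ]
    rfl
  have hfin : Module.finrank ℂ V = n := by
    have h1 := LinearMap.trace_one ℂ V
    rw [htr1] at h1
    exact_mod_cast h1.symm
  have hch : ∀ k : ℕ, ψ (z ^ k) = lam ^ k * (n : ℂ) := by
    intro k
    have h1 : ψ (((⟨z, hz⟩ : D) ^ k : D) : G) = ρ.character ((⟨z, hz⟩ : D) ^ k) := hψχ _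
    rw [Subgroup.coe_pow] at h1
    rw [h1]
    show LinearMap.trace ℂ V (ρ ((⟨z, hz⟩ : D) ^ k)) = _
    rw [hpow, map_smul, smul_eq_mul, htr1]
  have hn0 : (n : ℂ) ≠ 0 := by exact_mod_cast hn.ne'
  have hle : lam ^ p ^ e = 1 := by
    have h1 := hch (p ^ e)
    rw [← hzo, pow_orderOf_eq_one, hn1] at h1
    have h2 : lam ^ orderOf z = 1 := by
      apply mul_right_cancel₀ hn0
      rw [← h1, one_mul]
    rw [← hzo]
    exact h2
  have hlt : ¬ lam ^ p ^ (e - 1) = 1 := by
    intro h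
    apply hχu
    have h1 := hch (p ^ (e - 1))
    rw [h, one_mul] at h1
    rw [hdim, ← h1]
    exact (hψχ u).symm
  have hord : orderOf lam = p ^ e := by
    have h1 : e - 1 + 1 = e := by omega
    have : Fact p.Prime := ⟨hp⟩
    have h2 := orderOf_eq_prime_pow hlt (by rw [h1]; exact hle)
    rw [h1] at h2
    exact h2
  have hnorm : ‖lam‖ = 1 := Complex.norm_eq_one_of_pow_eq_one hle (pow_pos hp.pos e).ne'
  -- the bound for the degree
  have hsq : n ^ 2 ≤ p ^ m := by
    let A : Finset G := (Finset.range (p ^ e)).image fun k => z ^ k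
    have hA : A.card = p ^ e := by
      rw [Finset.card_image_of_injOn, Finset.card_range]
      intro i hi j hj hij
      have h1 : i < p ^ e := Finset.mem_range.1 hi
      have h2 : j < p ^ e := Finset.mem_range.1 hj
      rw [← hzo] at h1 h2
      exact pow_injOn_Iio_orderOf h1 h2 hij
    have h1 := NTR_sq hB2 hST D ψ hψ A n (by
      intro g hg
      obtain ⟨k, -, rfl⟩ := Finset.mem_image.1 hg
      rw [hch, norm_mul, norm_pow, hnorm, one_pow, one_mul]
      simp)
    rw [hA] at h1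
    have h2 : p ^ e * n ^ 2 ≤ Nat.card D := by exact_mod_cast h1
    have h3 : p ^ e * n ^ 2 ≤ p ^ e * p ^ m := by
      rw [← pow_add]
      exact h2.trans hcard
    exact Nat.le_of_mul_le_mul_left h3 (pow_pos hp.pos e)
  -- the determinant
  have hdet : lam ^ (p ^ (c - 1) * n) = 1 := by
    let φ : D →* ℂˣ := ((LinearMap.det : (V →ₗ[ℂ] V) →* ℂ).comp (ρ : D →* (V →ₗ[ℂ] V))).toHomUnits
    have hw' : ∃ w' : D, w' ∈ commutator D ∧ (w' : G) = z ^ p ^ (c - 1) := by
      have h1 : ⁅D, D⁆ = (commutator D).map D.subtype := by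
        rw [commutator_def, Subgroup.map_commutator]
        have : (⊤ : Subgroup D).map D.subtype = D := by
          rw [← MonoidHom.range_eq_map, Subgroup.range_subtype]
        rw [this]
      rw [h1] at hw
      obtain ⟨w', hw1, hw2⟩ := Subgroup.mem_map.1 hw
      exact ⟨w', hw1, hw2⟩
    obtain ⟨w', hw1, hw2⟩ := hw'
    have h2 : φ w' = 1 := by
      have h3 := Abelianization.commutator_subset_ker φ hw1
      exact h3
    have h3 : LinearMap.det (ρ w') = 1 := congrArg Units.val h2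
    have h4 : w' = (⟨z, hz⟩ : D) ^ p ^ (c - 1) := by
      apply Subtype.ext
      rw [hw2, Subgroup.coe_pow]
    rw [h4, hpow, LinearMap.det_smul, map_one, mul_one, hfin, ← pow_mul] at h3
    exact h3
  have hdvd : p ^ (m / 2 + 1) ∣ n := by
    have h1 := orderOf_dvd_of_pow_eq_one hdet
    rw [hord] at h1
    have h2 : p ^ e = p ^ (c - 1) * p ^ (m / 2 + 1) := by
      rw [← pow_add]
      congr 1
      omega
    rw [h2] at h1
    exact Nat.dvd_of_mul_dvd_mul_left (pow_pos hp.pos _) h1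
  have h5 : p ^ (m / 2 + 1) ≤ n := Nat.le_of_dvd hn hdvd
  have h6 : (p ^ (m / 2 + 1)) ^ 2 ≤ p ^ m := (Nat.pow_le_pow_left h5 2).trans hsq
  rw [← pow_mul] at h6
  have h7 := (Nat.pow_le_pow_iff_right hp.one_lt).1 h6
  omega

end Pool.Agent.NAB
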